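import Mathlib
import Pool.Agent.Helper21.SR.St

/-!
# SR module TEL: the telescoping certificate
-/

set_option autoImplicit false

namespace Pool.Agent.Helper71.SR

open Pool.Agent.Helper21.SR MeasureTheory

private lemma Qc_bd (x : ℝ) (h0 : 0 ≤ x) (h1 : x ≤ 1) : |Qc x| ≤ 3 * (1 - x) := by
  unfold Qc
  have h2 : 0 ≤ 1 - x := by linarith
  rw [abs_mul, abs_of_nonneg h2]
  have h3 : |10787 / 10000 + 9861 / 10000 * x - 2497 / 10000 * x ^ 2| ≤ (3 : ℝ) := by
    rw [abs_le]
    constructor <;> nlinarith [mul_nonneg h0 h2]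
  nlinarith

theorem hTel : StTel := by
  intro P K R hP h01 hI hK hineq
  set q : ℝ → ℝ := fun w => Qc (P w) / w ^ 2 with hq
  have hQcont : Continuous Qc := by unfold Qc; fun_prop
  have hqm : AEStronglyMeasurable q (volume.restrict (Set.Ioi 0)) := by
    refine ContinuousOn.aestronglyMeasurable ?_ measurableSet_Ioi
    refine ContinuousOn.div (hQcont.comp hP).continuousOn (by fun_prop) ?_
    intro x hx
    exact pow_ne_zero _ (ne_of_gt hx)
  have hqI : IntegrableOn q (Set.Ioi 0) := by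
    refine Integrable.mono' (hI.const_mul 3) hqm ?_
    refine Filter.Eventually.of_forall fun w => ?_
    rw [hq]
    simp only [Real.norm_eq_abs, abs_div, abs_of_nonneg (sq_nonneg w)]
    rw [← mul_div_assoc]
    exact div_le_div_of_nonneg_right (Qc_bd _ (h01 w).1 (h01 w).2) (sq_nonneg w)
  have hhalf : (0 : ℝ) < 1 / 2 := by norm_num
  have hq2I : IntegrableOn (fun w => q (1 / 2 * w)) (Set.Ioi 0) := by
    rw [integrableOn_Ioi_comp_mul_left_iff q 0 hhalf, mul_zero]
    exact hqI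
  have hq2 : ∫ w in Set.Ioi (0 : ℝ), q (1 / 2 * w) = 2 * ∫ w in Set.Ioi (0 : ℝ), q w := by
    rw [integral_comp_mul_left_Ioi q 0 hhalf, mul_zero]
    norm_num
  have hmono : ∫ w in Set.Ioi (0 : ℝ), K w / w ^ 2 ≤
      ∫ w in Set.Ioi (0 : ℝ), (2 * R * ((1 - P w) / w ^ 2) + (1 / 2 * q (1 / 2 * w) - q w)) := by
    refine setIntegral_mono_on hK ?_ measurableSet_Ioi ?_
    · exact (hI.const_mul (2 * R)).add ((hq2I.const_mul (1 / 2)).sub hqI)
    · intro w hw
      have hw0 : (0 : ℝ) < w := hw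
      have hw2 : (0 : ℝ) < w ^ 2 := by positivity
      have h := hineq w hw0
      have e : 2 * R * ((1 - P w) / w ^ 2) + (1 / 2 * q (1 / 2 * w) - q w) =
          (2 * R * (1 - P w) + 2 * Qc (P (w / 2)) - Qc (P w)) / w ^ 2 := by
        have e1 : (1 : ℝ) / 2 * w = w / 2 := by ring
        rw [hq]
        simp only [e1]
        field_simp
        ring
      rw [e]
      exact div_le_div_of_nonneg_right (by linarith) hw2.le
  refine le_trans hmono (le_of_eq ?_)
  have hs : IntegrableOn (fun w => 1 / 2 * q (1 / 2 * w) - q w) (Set.Ioi 0) :=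
    (hq2I.const_mul (1 / 2)).sub hqI
  have e1 : ∫ w in Set.Ioi (0 : ℝ), (2 * R * ((1 - P w) / w ^ 2) + (1 / 2 * q (1 / 2 * w) - q w)) =
      (∫ w in Set.Ioi (0 : ℝ), 2 * R * ((1 - P w) / w ^ 2)) +
        ∫ w in Set.Ioi (0 : ℝ), (1 / 2 * q (1 / 2 * w) - q w) :=
    integral_add (hI.const_mul (2 * R)) hs
  have e2 : ∫ w in Set.Ioi (0 : ℝ), (1 / 2 * q (1 / 2 * w) - q w) =
      (∫ w in Set.Ioi (0 : ℝ), 1 / 2 * q (1 / 2 * w)) - ∫ w in Set.Ioi (0 : ℝ), q w :=
    integral_sub (hq2I.const_mul (1 / 2)) hqI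
  rw [e1, e2, integral_const_mul, integral_const_mul, hq2]
  ring

end Pool.Agent.Helper71.SR
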